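import Mathlib

/-!
The replica of an automorphism: an operator which is constant on the generalised eigenspaces kills
the invariant forms.
-/

namespace Pool.Agent.Helper65.Ball

open Module

section replica

/-- the generalised eigenspaces form an internal direct sum -/
lemma isInternal_maxGen {V : Type} [AddCommGroup V] [Module ℂ V] [FiniteDimensional ℂ V]
    (g : Module.End ℂ V) : DirectSum.IsInternal (fun μ : ℂ => g.maxGenEigenspace μ) :=
  DirectSum.isInternal_submodule_of_iSupIndep_of_iSup_eq_top
    (Module.End.independent_maxGenEigenspace g) (Module.End.iSup_maxGenEigenspace_eq_top g)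

/-- M1a. -/
theorem M1a {V : Type} [AddCommGroup V] [Module ℂ V] [FiniteDimensional ℂ V]
    (g : Module.End ℂ V) (f : ℂ → ℂ) :
    ∃ Y : Module.End ℂ V, ∀ μ, ∀ v ∈ g.maxGenEigenspace μ, Y v = f μ • v := by
  classical
  have h := isInternal_maxGen g
  let e : (DirectSum ℂ fun μ : ℂ => g.maxGenEigenspace μ) ≃ₗ[ℂ] V :=
    LinearEquiv.ofBijective (DirectSum.coeLinearMap (fun μ : ℂ => g.maxGenEigenspace μ)) h
  refine ⟨(DirectSum.toModule ℂ ℂ V
    (fun μ => f μ • (g.maxGenEigenspace μ).subtype)) ∘ₗ e.symm.toLinearMap, ?_⟩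
  intro μ v hv
  have h1 : e.symm v = DirectSum.lof ℂ ℂ (fun μ : ℂ => g.maxGenEigenspace μ) μ ⟨v, hv⟩ := by
    rw [LinearEquiv.symm_apply_eq]
    show v = DirectSum.coeLinearMap _ _
    rw [DirectSum.coeLinearMap_lof]
  rw [LinearMap.comp_apply, LinearEquiv.coe_coe, h1, DirectSum.toModule_lof]
  rfl

/-- an invariant form vanishes on generalised eigenvectors whose eigenvalues have product
different from one -/
lemma vanish {V : Type} [AddCommGroup V] [Module ℂ V]
    (g : Module.End ℂ V) {p : ℕ}
    (α : MultilinearMap ℂ (fun _ : Fin p => V) ℂ) (hα : ∀ v, α (fun i => g (v i)) = α v)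
    (μ : Fin p → ℂ) (hμ : ∏ i, μ i ≠ 1) :
    ∀ (M : ℕ) (N : Fin p → ℕ), ∑ i, N i = M → ∀ v : Fin p → V,
      (∀ i, ((g - μ i • (1 : Module.End ℂ V)) ^ (N i)) (v i) = 0) → α v = 0 := by
  classical
  intro M
  induction M using Nat.strong_induction_on with
  | _ M ih =>
    intro N hN v hv
    by_cases h0 : ∃ i, N i = 0
    · obtain ⟨i, hi⟩ := h0
      have h1 := hv i
      rw [hi, pow_zero, Module.End.one_apply] at h1
      exact α.map_coord_zero i h1
    · push Not at h0
      let w : Fin p → V := fun i => (g - μ i • (1 : Module.End ℂ V)) (v i)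
      have hg : (fun i => g (v i)) = (fun i => μ i • v i) + w := by
        funext i
        show g (v i) = μ i • v i + (g - μ i • (1 : Module.End ℂ V)) (v i)
        rw [LinearMap.sub_apply, LinearMap.smul_apply, Module.End.one_apply]
        abel
      have hw : ∀ i, ((g - μ i • (1 : Module.End ℂ V)) ^ (N i - 1)) (w i) = 0 := by
        intro i
        have h1 := hv i
        have h2 : N i = (N i - 1) + 1 := (Nat.succ_pred_eq_of_pos (Nat.pos_of_ne_zero (h0 i))).symm
        rw [h2, pow_succ, Module.End.mul_apply] at h1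
        exact h1
      have h1 := hα v
      rw [hg, MultilinearMap.map_add_univ] at h1
      have h2 : ∀ s : Finset (Fin p), s ≠ Finset.univ →
          α (s.piecewise (fun i => μ i • v i) w) = 0 := by
        intro s hs
        have hlt : ∑ i, s.piecewise N (fun i => N i - 1) i < M := by
          rw [← hN]
          obtain ⟨j, hj⟩ : ∃ j, j ∉ s := by
            by_contra hcon
            push Not at hcon
            exact hs (Finset.eq_univ_iff_forall.mpr hcon)
          refine Finset.sum_lt_sum (fun i _ => ?_) ⟨j, Finset.mem_univ j, ?_⟩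
          · by_cases hi : i ∈ s
            · rw [Finset.piecewise_eq_of_mem _ _ _ hi]
            · rw [Finset.piecewise_eq_of_notMem _ _ _ hi]
              exact Nat.sub_le _ _
          · rw [Finset.piecewise_eq_of_notMem _ _ _ hj]
            have := h0 j
            omega
        refine ih _ hlt _ rfl _ fun i => ?_
        by_cases hi : i ∈ s
        · rw [Finset.piecewise_eq_of_mem _ _ _ hi, Finset.piecewise_eq_of_mem _ _ _ hi, map_smul,
            hv, smul_zero]
        · rw [Finset.piecewise_eq_of_notMem _ _ _ hi, Finset.piecewise_eq_of_notMem _ _ _ hi]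
          exact hw i
      rw [Finset.sum_eq_single Finset.univ (fun s _ hs => h2 s hs)
        (fun h => absurd (Finset.mem_univ _) h), Finset.piecewise_univ,
        MultilinearMap.map_smul_univ, smul_eq_mul] at h1
      have h3 : (∏ i, μ i - 1) * α v = 0 := by
        rw [sub_mul, one_mul, h1, sub_self]
      exact (mul_eq_zero.mp h3).resolve_left (sub_ne_zero.mpr hμ)

/-- M1b. -/
theorem M1b {V : Type} [AddCommGroup V] [Module ℂ V] [FiniteDimensional ℂ V]
    (g : Module.End ℂ V) (f : ℂ → ℂ) {p : ℕ}
    (hf : ∀ μ : Fin p → ℂ, ∏ i, μ i = 1 → ∑ i, f (μ i) = 0)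
    (α : MultilinearMap ℂ (fun _ : Fin p => V) ℂ) (hα : ∀ v, α (fun i => g (v i)) = α v)
    (Y : Module.End ℂ V) (hY : ∀ μ, ∀ v ∈ g.maxGenEigenspace μ, Y v = f μ • v)
    (v : Fin p → V) : ∑ i, α (Function.update v i (Y (v i))) = 0 := by
  classical
  let β : MultilinearMap ℂ (fun _ : Fin p => V) ℂ :=
    ∑ r, α.compLinearMap (fun r' => if r' = r then Y else LinearMap.id)
  have hβ : ∀ v, β v = ∑ i, α (Function.update v i (Y (v i))) := by
    intro v
    show (∑ r, α.compLinearMap (fun r' => if r' = r then Y else LinearMap.id)) v = _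
    rw [_root_.sum_apply]
    refine Finset.sum_congr rfl fun r _ => ?_
    rw [MultilinearMap.compLinearMap_apply]
    congr 1
    funext r'
    by_cases h : r' = r
    · subst h; rw [if_pos rfl, Function.update_self]
    · rw [if_neg h, Function.update_of_ne h]; rfl
  let b := (isInternal_maxGen g).collectedBasis
    (fun μ => Module.Free.chooseBasis ℂ (g.maxGenEigenspace μ))
  have hb : ∀ a, b a ∈ g.maxGenEigenspace a.1 := by
    intro a
    exact DirectSum.IsInternal.collectedBasis_mem _ _ _
  have key : β = 0 := by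
    refine Basis.ext_multilinear (fun _ => b) fun a => ?_
    rw [_root_.zero_apply, hβ]
    have h1 : ∀ i, α (Function.update (fun i => b (a i)) i (Y (b (a i)))) =
        f (a i).1 * α (fun i => b (a i)) := by
      intro i
      rw [hY _ _ (hb (a i)), MultilinearMap.map_update_smul, Function.update_eq_self, smul_eq_mul]
    rw [Finset.sum_congr rfl (fun i _ => h1 i), ← Finset.sum_mul]
    by_cases h2 : ∏ i, (a i).1 = 1
    · rw [hf _ h2, zero_mul]
    · have h3 : α (fun i => b (a i)) = 0 := by
        have h4 : ∀ i, ∃ N : ℕ, ((g - (a i).1 • (1 : Module.End ℂ V)) ^ N) (b (a i)) = 0 :=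
          fun i => (Module.End.mem_maxGenEigenspace _ _ _).mp (hb (a i))
        choose N hN using h4
        exact vanish g α hα (fun i => (a i).1) h2 _ N rfl _ hN
      rw [h3, mul_zero]
  rw [← hβ, key]
  rfl

end replica

end Pool.Agent.Helper65.Ball
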