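import Pool.Agent.Helper8.B.Defs
import Pool.Agent.Helper65.Ball.M1ab

/-!
The logarithm of the absolute value of a real symmetry is an infinitesimal symmetry.
-/

open scoped ComplexConjugate

namespace Pool.Agent.Helper65.Ball

open Module Pool.Agent.Helper7 Pool.Agent.Ball

set_option linter.unusedSectionVars false

/-- two linear maps which agree on the generalised eigenspaces are equal -/
lemma ext_maxGen {V V' : Type} [AddCommGroup V] [Module ℂ V] [FiniteDimensional ℂ V]
    [AddCommGroup V'] [Module ℂ V'] (g : Module.End ℂ V) (A B : V →ₗ[ℂ] V')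
    (h : ∀ μ, ∀ v ∈ g.maxGenEigenspace μ, A v = B v) : A = B := by
  have h1 : (⊤ : Submodule ℂ V) ≤ LinearMap.eqLocus A B := by
    rw [← Module.End.iSup_maxGenEigenspace_eq_top g]
    exact iSup_le fun μ v hv => h μ v hv
  ext v
  exact h1 (Submodule.mem_top : v ∈ (⊤ : Submodule ℂ V))

/-- the logarithm of the absolute value of an eigenvalue -/
noncomputable def lg (μ : ℂ) : ℂ := ((Real.log ‖μ‖ : ℝ) : ℂ)

lemma lg_sum {p : ℕ} (μ : Fin p → ℂ) (h : ∏ i, μ i = 1) : ∑ i, lg (μ i) = 0 := by
  have h0 : ∀ i, ‖μ i‖ ≠ 0 := by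
    intro i hi
    have h1 : μ i = 0 := norm_eq_zero.mp hi
    have h2 : ∏ i, μ i = 0 := Finset.prod_eq_zero (Finset.mem_univ i) h1
    rw [h2] at h
    exact zero_ne_one h
  have h1 : Real.log (∏ i, ‖μ i‖) = ∑ i, Real.log ‖μ i‖ := Real.log_prod (fun i _ => h0 i)
  have h2 : ∏ i, ‖μ i‖ = 1 := by
    rw [← norm_prod, h, norm_one]
  rw [h2, Real.log_one] at h1
  have h3 : ∑ i, lg (μ i) = ((∑ i, Real.log ‖μ i‖ : ℝ) : ℂ) := by
    push_cast
    rfl
  rw [h3, ← h1, Complex.ofReal_zero]

lemma lg_conj (μ : ℂ) : lg (conj μ) = lg μ := by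
  unfold lg
  rw [Complex.norm_conj]

lemma conj_lg (μ : ℂ) : conj (lg μ) = lg μ := Complex.conj_ofReal _

section family

variable {I : Type} [Fintype I] [DecidableEq I] (n : I → ℕ)
  {κ : I → Type} [∀ i, Fintype (κ i)] [∀ i, DecidableEq (κ i)] {ϖ : ℂ}
  (P : ∀ i, PData (κ i) ϖ)
  {k : ℕ} (α : MultilinearMap ℂ (fun _ : Fin (2 * k) => HW κ n) ℂ)

/-- powers of shifted operators and intertwiners -/
lemma pow_intertwine {V V' : Type} [AddCommGroup V] [Module ℂ V] [AddCommGroup V'] [Module ℂ V']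
    (g : Module.End ℂ V) (g' : Module.End ℂ V') (f : V →ₗ[ℂ] V')
    (h : ∀ v, g' (f v) = f (g v)) (μ : ℂ) (N : ℕ) (v : V) :
    ((g' - μ • (1 : Module.End ℂ V')) ^ N) (f v) = f (((g - μ • (1 : Module.End ℂ V)) ^ N) v) := by
  induction N generalizing v with
  | zero => rw [pow_zero, pow_zero, Module.End.one_apply, Module.End.one_apply]
  | succ N ih =>
    rw [pow_succ, pow_succ, Module.End.mul_apply, Module.End.mul_apply, ← ih]
    congr 1
    rw [LinearMap.sub_apply, LinearMap.sub_apply, LinearMap.smul_apply, LinearMap.smul_apply,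
      Module.End.one_apply, Module.End.one_apply, h, map_sub, map_smul]

lemma maxGen_map {V V' : Type} [AddCommGroup V] [Module ℂ V] [AddCommGroup V'] [Module ℂ V']
    (g : Module.End ℂ V) (g' : Module.End ℂ V') (f : V →ₗ[ℂ] V')
    (h : ∀ v, g' (f v) = f (g v)) (μ : ℂ) (v : V) (hv : v ∈ g.maxGenEigenspace μ) :
    f v ∈ g'.maxGenEigenspace μ := by
  obtain ⟨N, hN⟩ := (Module.End.mem_maxGenEigenspace _ _ _).mp hv
  exact (Module.End.mem_maxGenEigenspace _ _ _).mpr
    ⟨N, by rw [pow_intertwine g g' f h, hN, map_zero]⟩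

lemma maxGen_cB {κ : Type} [Fintype κ] [DecidableEq κ] {ϖ : ℂ} (P : PData κ ϖ)
    (g : Module.End ℂ (κ → ℂ)) (h : ∀ v, g (cB P v) = cB P (g v)) (μ : ℂ) (v : κ → ℂ)
    (hv : v ∈ g.maxGenEigenspace μ) : cB P v ∈ g.maxGenEigenspace (conj μ) := by
  obtain ⟨N, hN⟩ := (Module.End.mem_maxGenEigenspace _ _ _).mp hv
  refine (Module.End.mem_maxGenEigenspace _ _ _).mpr ⟨N, ?_⟩
  have h1 : ∀ (N : ℕ) (v : κ → ℂ), ((g - conj μ • (1 : Module.End ℂ (κ → ℂ))) ^ N) (cB P v) =
      cB P (((g - μ • (1 : Module.End ℂ (κ → ℂ))) ^ N) v) := by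
    intro N
    induction N with
    | zero => intro v; rw [pow_zero, pow_zero, Module.End.one_apply, Module.End.one_apply]
    | succ N ih =>
      intro v
      rw [pow_succ, pow_succ, Module.End.mul_apply, Module.End.mul_apply, ← ih]
      congr 1
      rw [LinearMap.sub_apply, LinearMap.sub_apply, LinearMap.smul_apply, LinearMap.smul_apply,
        Module.End.one_apply, Module.End.one_apply, h, cB_sub, cB_smul]
  rw [h1, hN, cB_zero]

/-- M1.  The logarithm of the absolute value of a real symmetry. -/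
theorem M1 (g : (i : I) → Module.End ℂ (κ i → ℂ)) (hg : IsGrp n P α g) :
    ∃ Y : GG κ, IsInv n P α Y ∧ Y.2 = 0 ∧
      (∀ i v, Y.1 i (cB (P i) v) = cB (P i) (Y.1 i v)) ∧
      ∀ i (μ : ℂ), ∀ v ∈ (g i).maxGenEigenspace μ, Y.1 i v = ((Real.log ‖μ‖ : ℝ) : ℂ) • v := by
  choose Y hY using fun i => M1a (g i) lg
  refine ⟨(Y, 0), ⟨?_, ?_, ?_⟩, rfl, ?_, fun i μ v hv => hY i μ v hv⟩
  · intro i j f hf v
    have h1 : (Y j) ∘ₗ f = f ∘ₗ (Y i) := by
      refine ext_maxGen (g i) _ _ fun μ v hv => ?_
      rw [LinearMap.comp_apply, LinearMap.comp_apply, hY i μ v hv, map_smul]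
      exact hY j μ _ (maxGen_map (g i) (g j) f (fun v => hg.comm i j f hf v) μ v hv)
    exact LinearMap.congr_fun h1 v
  · intro i u v
    let β : MultilinearMap ℂ (fun _ : Fin 2 => (κ i → ℂ)) ℂ :=
      { toFun := fun w => (P i).ψ (w 0) (w 1)
        map_update_add' := by
          intro inst w r x y
          have hinst : inst = instDecidableEqFin 2 := Subsingleton.elim _ _
          subst hinst
          fin_cases r <;> simp [Function.update]
        map_update_smul' := by
          intro inst w r c x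
          have hinst : inst = instDecidableEqFin 2 := Subsingleton.elim _ _
          subst hinst
          fin_cases r <;> simp [Function.update] }
    have h := M1b (g i) lg (fun μ h => lg_sum μ h) β (fun w => hg.pol i (w 0) (w 1)) (Y i) (hY i)
      ![u, v]
    rw [Fin.sum_univ_two] at h
    have h1 : β (Function.update ![u, v] 0 (Y i (![u, v] 0))) = (P i).ψ (Y i u) v := by
      show (P i).ψ _ _ = _
      simp [Function.update]
    have h2 : β (Function.update ![u, v] 1 (Y i (![u, v] 1))) = (P i).ψ u (Y i v) := by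
      show (P i).ψ _ _ = _
      simp [Function.update]
    rw [h1, h2] at h
    show (P i).ψ (Y i u) v + (P i).ψ u (Y i v) = 0 * _
    rw [h, zero_mul]
  · show actForm (lift n Y) α = ((k : ℂ) * 0) • α
    rw [mul_zero, zero_smul]
    apply MultilinearMap.ext
    intro v
    rw [actForm_apply, _root_.zero_apply]
    refine M1b (lift n g) lg (fun μ h => lg_sum μ h) α (fun v => hg.form v) (lift n Y) ?_ v
    intro μ v hv
    funext i m
    rw [lift_apply]
    refine hY i μ (v i m) ?_
    let pr : HW κ n →ₗ[ℂ] (κ i → ℂ) :=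
      { toFun := fun w => w i m
        map_add' := fun _ _ => rfl
        map_smul' := fun _ _ => rfl }
    exact maxGen_map (lift n g) (g i) pr (fun v => rfl) μ v hv
  · intro i v
    let S : Submodule ℂ (κ i → ℂ) :=
      { carrier := {v | Y i (cB (P i) v) = cB (P i) (Y i v)}
        zero_mem' := by
          show Y i (cB (P i) 0) = cB (P i) (Y i 0)
          rw [cB_zero, map_zero, cB_zero]
        add_mem' := by
          intro a b (ha : Y i (cB (P i) a) = cB (P i) (Y i a))
            (hb : Y i (cB (P i) b) = cB (P i) (Y i b))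
          show Y i (cB (P i) (a + b)) = cB (P i) (Y i (a + b))
          rw [cB_add, map_add, map_add, cB_add, ha, hb]
        smul_mem' := by
          intro c a (ha : Y i (cB (P i) a) = cB (P i) (Y i a))
          show Y i (cB (P i) (c • a)) = cB (P i) (Y i (c • a))
          rw [cB_smul, map_smul, map_smul, cB_smul, ha] }
    have h1 : (⊤ : Submodule ℂ (κ i → ℂ)) ≤ S := by
      rw [← Module.End.iSup_maxGenEigenspace_eq_top (g i)]
      refine iSup_le fun μ v hv => ?_
      show Y i (cB (P i) v) = cB (P i) (Y i v)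
      rw [hY i μ v hv, hY i (conj μ) _ (maxGen_cB (P i) (g i) (fun v => hg.real i v) μ v hv),
        cB_smul, lg_conj, conj_lg]
    exact h1 (Submodule.mem_top : v ∈ (⊤ : Submodule ℂ (κ i → ℂ)))

end family

end Pool.Agent.Helper65.Ball
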